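import Pool.Agent.D0H95.BF.Lag8
import Pool.Agent.D0H95.BF.Zet
import Pool.Agent.D0H95.BF.Pert
import Pool.Agent.D0H70.BF.Bu
import Pool.Agent.D0H70.BF.Sad
import Pool.Agent.D0H70.BF.Eig
import Pool.Agent.D0H70.BF.Uni
import Pool.Agent.D0H65.BF.Tay
import Pool.Agent.D0H25.BF.NT

set_option autoImplicit false

/-!
# Elliptic Lagrange orbits of small eccentricity are not Lyapunov stable

In the homographic solution of Lagrange with eccentricity `e` and semi-major axis `A` the three bodies
form an equilateral triangle for all times, and each body moves on a Kepler ellipse. The period is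
`2 π √(A³ / M)`, `M = m₀ + m₁ + m₂`; in the centre of mass frame the solution is periodic.

Let `27 (m₀ m₁ + m₁ m₂ + m₂ m₀) < M²` (the range of Gascheau and Routh, where the circular solution and
the solutions of small eccentricity are spectrally stable) and `36 (m₀ m₁ + m₁ m₂ + m₂ m₀) ≠ M²` (the
multiplier `-1` of the circular solution). Then there is `e₀ > 0`, depending on the masses, such that for
`0 < |e| < e₀` and every semi-major axis the orbit of the elliptic Lagrange solution is NOT Lyapunov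
stable in the centre of mass frame. (For negative `e` the bodies start at the greatest distance.)

Proof. The elliptic solutions of a fixed semi-major axis are an isochronous family (same energy, same
period), which is exactly the exceptional case of the general results on stable orbits. The variational
equation splits; in the direction transversal to the homographic motions it is, with the eccentric anomaly
`u`, `((1 - e cos u) ζ')' + 2 i √(1-e²) ζ' = 3/2 ζ + κ conj ζ`, `κ² = (9 - β) / 4`,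
`β = 27 (m₀ m₁ + m₁ m₂ + m₂ m₀) / M²`. For `e = 0` the multipliers are `exp (± 2 π i λ)` for the two roots
`λ` of `λ⁴ - λ² + β / 4 = 0`, and second order perturbation theory gives the angles
`2 π (λ + λ (6 λ² - 7) (λ² - 1) / (4 (4 λ² - 1) (2 λ² - 1)) e² + O (e³))`: they vary with `e`. By
`StableOrbitsAreIsospectral` (bifurcation at the resonances against the locking of the rotations) the
multipliers would be constant near a stable orbit.
-/

namespace Pool.Agent.Results.MP_5027f4_mp.EllipticLagrangeOrbits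

open Filter Topology

/-- Phase points of three bodies in the plane `ℂ`: positions and velocities (product topology). -/
abbrev Ph := (Fin 3 → ℂ) × (Fin 3 → ℂ)

/-- Newtonian acceleration of body `a`: `∑_{b ≠ a} m_b (q_b - q_a) / |q_b - q_a|^3`. -/
noncomputable def acc (m : Fin 3 → ℝ) (q : Fin 3 → ℂ) (a : Fin 3) : ℂ :=
  ∑ b ∈ Finset.univ.erase a, ((m b / ‖q b - q a‖ ^ 3 : ℝ) : ℂ) * (q b - q a)

/-- The phase space in the centre of mass frame: no collisions, `∑ m_a q_a = 0`, `∑ m_a v_a = 0`. -/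
def phaseSpace (m : Fin 3 → ℝ) : Set Ph :=
  {z | (∀ a b, a ≠ b → z.1 a ≠ z.1 b) ∧ ∑ a, (m a : ℂ) * z.1 a = 0 ∧ ∑ a, (m a : ℂ) * z.2 a = 0}

/-- `x = (q, v)` is a solution of Newton's equations on the time set `J`, in the centre of mass frame. -/
def IsSol (m : Fin 3 → ℝ) (J : Set ℝ) (x : ℝ → Ph) : Prop :=
  ∀ t ∈ J, x t ∈ phaseSpace m ∧ HasDerivWithinAt x ((x t).2, acc m (x t).1) J t

/-- Lyapunov stability of an orbit `γ` in the centre of mass frame: for every neighbourhood `U₁` there is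
a neighbourhood `U₂` such that every solution on `[0, ∞)` that starts in `U₂` stays in `U₁`. -/
def LyapunovStable (m : Fin 3 → ℝ) (γ : Set Ph) : Prop :=
  ∀ U₁ : Set Ph, IsOpen U₁ → γ ⊆ U₁ → ∃ U₂ : Set Ph, IsOpen U₂ ∧ γ ⊆ U₂ ∧
    ∀ y : ℝ → Ph, IsSol m (Set.Ici 0) y → y 0 ∈ U₂ → ∀ t : ℝ, 0 ≤ t → y t ∈ U₁

/-- Total mass. -/
def totalMass (m : Fin 3 → ℝ) : ℝ := m 0 + m 1 + m 2

/-- The initial condition of the elliptic Lagrange solution with the equilateral triangle `a` (sides `1`),
semi-major axis `A` and eccentricity `e`: the triangle has the side `A (1 - e)` and moves perpendicularly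
to the radius vectors, with the velocity `√(M (1 + e) / (A (1 - e)))` per unit of `a`. -/
noncomputable def lagrange (m : Fin 3 → ℝ) (a : Fin 3 → ℂ) (A e : ℝ) : Ph :=
  ((fun i => ((A * (1 - e) : ℝ) : ℂ) * a i),
    (fun i => ((Real.sqrt (totalMass m * (1 + e) / (A * (1 - e))) : ℝ) : ℂ) * Complex.I * a i))

theorem result {m : Fin 3 → ℝ} (hm : ∀ i, 0 < m i)
    (hR : 27 * (m 0 * m 1 + m 1 * m 2 + m 2 * m 0) < totalMass m ^ 2)
    (hR' : 36 * (m 0 * m 1 + m 1 * m 2 + m 2 * m 0) ≠ totalMass m ^ 2)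
    {a : Fin 3 → ℂ} (ha : ∀ i j, i ≠ j → ‖a i - a j‖ = 1) (ha0 : ∑ i, (m i : ℂ) * a i = 0) :
    ∃ e₀ : ℝ, 0 < e₀ ∧ e₀ < 1 ∧ ∀ A : ℝ, 0 < A → ∀ e : ℝ, 0 < |e| → |e| < e₀ →
      ∃ x : ℝ → Ph, IsSol m Set.univ x ∧ x 0 = lagrange m a A e ∧
        (∀ t, x (t + 2 * Real.pi * Real.sqrt (A ^ 3 / totalMass m)) = x t) ∧
        (∀ t, ∃ ρ v : ℂ, x t = ((fun i => ρ * a i), (fun i => v * a i))) ∧
        ¬ LyapunovStable m (Set.range x) := by
  obtain ⟨e₀, h1, h2, h3⟩ := Pool.Agent.D0H95.BF.lagrange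
    (Pool.Agent.D0H70.BF.t_BU Pool.Agent.D0H70.BF.t_SAD) Pool.Agent.D0H25.BF.t_NT
    Pool.Agent.D0H70.BF.t_EIG Pool.Agent.D0H95.BFT.t_PERT Pool.Agent.D0H70.BF.t_UNI
    Pool.Agent.D0H65.BF.t_TAY Pool.Agent.D0H95.BF.t_ZET hm hR hR' ha ha0
  refine ⟨e₀, h1, h2, fun A hA e he he' => ?_⟩
  obtain ⟨k1, k2, k3, k4⟩ := Pool.Agent.D0H95.BF.xe_data hm ha ha0 hA (he'.trans h2)
  exact ⟨_, k1, k2, k3, k4, h3 A hA e he he'⟩

end Pool.Agent.Results.MP_5027f4_mp.EllipticLagrangeOrbits
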