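import Pool.Agent.D0H95.NB.Main2

set_option autoImplicit false

/-!
# Lyapunov stable relative periodic orbits: a further multiplier `1`, or an isochronous family

Let `x` be a relative periodic solution of the planar `n`-body problem, `x (t + T) = c • x t` with a
rotation `c`, which is not a relative equilibrium and whose orbit is Lyapunov stable in the centre of mass
frame. Then one of the following holds.

(R) The reduced periodic orbit is degenerate: there is a Jacobi field `ξ` (a solution of the linearized
equations along `x`) with `ξ (t + T) = c • ξ t`, tangent to the levels of energy and angular momentum,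
which is no combination of the time shift and the rotation; a further multiplier of the period map of the
reduced system is `1`.

(I) `x` belongs to an isochronous family, as the ellipses of the Kepler problem: there are solutions `y l`
for all `l` near the angular momentum of `x`, with a `C^1` curve of initial conditions through `x 0`, where
`y l` has the angular momentum `l`, the SAME energy, the SAME period and the SAME rotation:
`y l (t + T) = c • y l t`.

So a Lyapunov stable orbit always has a twisted periodic Jacobi field besides the time shift and the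
rotation; in other words a relative periodic solution is not Lyapunov stable if all its Jacobi fields with
`ξ (t + T) = c • ξ t` are combinations of the time shift and the rotation (first clause). By the starting
result `StableOrbitsLockRotations` such `T, c` exist for every relative periodic solution (`c` with `2 T`
for the period `T` of the distances).

Proof. If all Jacobi fields `ξ (t + T) = c • ξ t` are trivial, an implicit function theorem with the two
conserved functions gives solutions `y (t + T) = exp (i s) c • y t` near `x` for all small `s`; this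
contradicts the locking of the rotations near a stable orbit (`StableOrbitsLockRotations`). So there is a
third field `ξ`. The Wronskian of `ξ` with the scaling field shows `d E (ξ) = 0`; if (R) does not hold then
`d L (ξ) ≠ 0`, and the Wronskian with `ξ` shows that the fixed points of `exp (-i s) c⁻¹ Φ_T` near `x 0`
form a curve parametrized by the angular momentum, on which `s = 0` by the locking and the energy is
constant by the first remark.
-/

namespace Pool.Agent.Results.MP_5027f4_mp.StableOrbitsAreIsochronous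

open Filter Topology

/-- Phase points of `n` bodies in the plane `ℂ`: positions and velocities (product topology). -/
abbrev Ph (n : ℕ) := (Fin n → ℂ) × (Fin n → ℂ)

/-- Newtonian acceleration of body `a`: `∑_{b ≠ a} m_b (q_b - q_a) / |q_b - q_a|^3`. -/
noncomputable def acc {n : ℕ} (m : Fin n → ℝ) (q : Fin n → ℂ) (a : Fin n) : ℂ :=
  ∑ b ∈ Finset.univ.erase a, ((m b / ‖q b - q a‖ ^ 3 : ℝ) : ℂ) * (q b - q a)

/-- Newton's vector field: the velocities and the accelerations. -/
noncomputable def newton {n : ℕ} (m : Fin n → ℝ) (z : Ph n) : Ph n := (z.2, acc m z.1)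

/-- Total energy: kinetic energy minus the sum over pairs of `m_a m_b / |q_b - q_a|` (each pair occurs
twice in the double sum, which is halved). -/
noncomputable def energy {n : ℕ} (m : Fin n → ℝ) (z : Ph n) : ℝ :=
  (∑ a, m a * ‖z.2 a‖ ^ 2) / 2 -
    (∑ a, ∑ b ∈ Finset.univ.erase a, m a * m b / ‖z.1 b - z.1 a‖) / 2

/-- Angular momentum. -/
noncomputable def angMom {n : ℕ} (m : Fin n → ℝ) (z : Ph n) : ℝ :=
  ∑ a, m a * ((starRingEnd ℂ) (z.1 a) * z.2 a).im

/-- The phase space in the centre of mass frame: no collisions, `∑ m_a q_a = 0`, `∑ m_a v_a = 0`. -/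
def phaseSpace {n : ℕ} (m : Fin n → ℝ) : Set (Ph n) :=
  {z | (∀ a b, a ≠ b → z.1 a ≠ z.1 b) ∧ ∑ a, (m a : ℂ) * z.1 a = 0 ∧ ∑ a, (m a : ℂ) * z.2 a = 0}

/-- `x = (q, v)` is a solution of Newton's equations on the time set `J`, in the centre of mass frame. -/
def IsSol {n : ℕ} (m : Fin n → ℝ) (J : Set ℝ) (x : ℝ → Ph n) : Prop :=
  ∀ t ∈ J, x t ∈ phaseSpace m ∧ HasDerivWithinAt x (newton m (x t)) J t

/-- All mutual distances are constant: a relative equilibrium. -/
def IsRelEq {n : ℕ} (x : ℝ → Ph n) : Prop :=
  ∀ t a b, ‖(x t).1 a - (x t).1 b‖ = ‖(x 0).1 a - (x 0).1 b‖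

/-- Lyapunov stability of an orbit `γ` in the centre of mass frame: for every neighbourhood `U₁` there is
a neighbourhood `U₂` such that every solution on `[0, ∞)` that starts in `U₂` stays in `U₁`. -/
def LyapunovStable {n : ℕ} (m : Fin n → ℝ) (γ : Set (Ph n)) : Prop :=
  ∀ U₁ : Set (Ph n), IsOpen U₁ → γ ⊆ U₁ → ∃ U₂ : Set (Ph n), IsOpen U₂ ∧ γ ⊆ U₂ ∧
    ∀ y : ℝ → Ph n, IsSol m (Set.Ici 0) y → y 0 ∈ U₂ → ∀ t : ℝ, 0 ≤ t → y t ∈ U₁

/-- `ξ` is a Jacobi field along `x`: it solves the linearization of Newton's equations along `x`, for all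
times, in the centre of mass frame. -/
def IsJacobi {n : ℕ} (m : Fin n → ℝ) (x ξ : ℝ → Ph n) : Prop :=
  ∀ t, (∑ a, (m a : ℂ) * (ξ t).1 a = 0 ∧ ∑ a, (m a : ℂ) * (ξ t).2 a = 0) ∧
    HasDerivAt ξ (fderiv ℝ (newton m) (x t) (ξ t)) t

/-- `ξ` is a real combination of the time shift `d x / d t` and of the infinitesimal rotation `i x`. -/
def Trivial {n : ℕ} (m : Fin n → ℝ) (x ξ : ℝ → Ph n) : Prop :=
  ∃ α β : ℝ, ∀ t, ξ t = α • newton m (x t) + β • (Complex.I • x t)

/-- (R): there is a nontrivial Jacobi field `ξ (t + T) = c • ξ t` tangent to the levels of energy and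
angular momentum. -/
def ReducedDegenerate {n : ℕ} (m : Fin n → ℝ) (x : ℝ → Ph n) (T : ℝ) (c : ℂ) : Prop :=
  ∃ ξ : ℝ → Ph n, IsJacobi m x ξ ∧ (∀ t, ξ (t + T) = c • ξ t) ∧
    (∀ t, fderiv ℝ (energy m) (x t) (ξ t) = 0) ∧ (∀ t, fderiv ℝ (angMom m) (x t) (ξ t) = 0) ∧
    ¬ Trivial m x ξ

/-- (I): `x` belongs to a family of solutions with the same energy, the same `T` and the same rotation
`c`, which is parametrized by the angular momentum. -/
def Isochronous {n : ℕ} (m : Fin n → ℝ) (x : ℝ → Ph n) (T : ℝ) (c : ℂ) : Prop :=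
  ∃ ε : ℝ, 0 < ε ∧ ∃ y : ℝ → ℝ → Ph n, y (angMom m (x 0)) = x ∧
    ContDiffOn ℝ 1 (fun l => y l 0) (Metric.ball (angMom m (x 0)) ε) ∧
    ∀ l ∈ Metric.ball (angMom m (x 0)) ε, IsSol m Set.univ (y l) ∧
      (∀ t, y l (t + T) = c • y l t) ∧ energy m (y l 0) = energy m (x 0) ∧ angMom m (y l 0) = l

theorem result {n : ℕ} {m : Fin n → ℝ} (hn : 2 ≤ n) (hm : ∀ a, 0 < m a) {x : ℝ → Ph n}
    (hx : IsSol m Set.univ x) (hne : ¬ IsRelEq x) (hst : LyapunovStable m (Set.range x))
    {T : ℝ} (hT : 0 < T) {c : ℂ} (hc : ‖c‖ = 1) (hper : ∀ t, x (t + T) = c • x t) :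
    (∃ ξ : ℝ → Ph n, IsJacobi m x ξ ∧ (∀ t, ξ (t + T) = c • ξ t) ∧ ¬ Trivial m x ξ) ∧
    (ReducedDegenerate m x T c ∨ Isochronous m x T c) := by
  constructor
  · have h := Pool.Agent.D0H95.NB.stable_degenerate hn hm hx hne hst hT hc hper
    unfold Pool.Agent.D0H95.NB.Nondeg at h
    push Not at h
    obtain ⟨ξ, h1, h2, h3⟩ := h
    refine ⟨ξ, fun t => ⟨(h1 t).1, (h1 t).2⟩, h2, ?_⟩
    rintro ⟨α, β, h4⟩
    obtain ⟨t, ht⟩ := h3 α β
    exact ht (h4 t)
  · by_cases hR : ReducedDegenerate m x T c
    · exact Or.inl hR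
    · refine Or.inr ?_
      refine Pool.Agent.D0H95.NB.isochronous hn hm hx hne hst hT hc hper fun ξ h1 h2 h3 => ?_
      by_contra h4
      refine hR ⟨ξ, fun t => ⟨(h1 t).1, (h1 t).2⟩, h2, ?_, h3, h4⟩
      exact Pool.Agent.D0H95.NB.energy_zero hx (fun t => (h1 t).2) hT hc hper h2

end Pool.Agent.Results.MP_5027f4_mp.StableOrbitsAreIsochronous
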