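import Pool.Agent.D0H95.BF.Spec
import Pool.Agent.D0H70.BF.Bu
import Pool.Agent.D0H70.BF.Sad
import Pool.Agent.D0H70.BF.Eig
import Pool.Agent.D0H25.BF.NT

set_option autoImplicit false

/-!
# Lyapunov stable orbits with elliptic multipliers lie in isochronous and isospectral families

Let `x` be a relative periodic solution of the planar three-body problem, `x (t + T) = c • x t` with a
rotation `c`, which is not a relative equilibrium. Assume that the four multipliers of the reduced
periodic orbit (in the centre of mass frame, without the rotation) are two pairs `exp (± i α₁)`,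
`exp (± i α₂)` on the unit circle, `sin α_j ≠ 0`, `cos α₁ ≠ cos α₂` (the linearly stable case). If the
orbit of `x` is Lyapunov stable then `x` belongs to a family of solutions `y l`, for all `l` near the
angular momentum of `x`, with a `C^1` curve of initial conditions through `x 0`, where `y l` has the
angular momentum `l`, the SAME energy, the SAME period and rotation, `y l (t + T) = c • y l t`, and the
SAME two pairs of multipliers `exp (± i α₁)`, `exp (± i α₂)`.

Proof. The isochronous family `y l` comes from the starting result on the locking of the rotations near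
a stable orbit (`StableOrbitsLockRotations`) and the implicit function theorem. The pairs of multipliers
continue to `C^1` functions `α_j (l)`. Assume that `α₁` is not constant. If `q α₁ (l) ∈ 2 π ℤ`,
`q α₂ (l) ∉ 2 π ℤ`, `α₁' (l) ≠ 0`, then the fixed points of `exp (-i s) c⁻ᵠ Φ_{qT}` near `y l (0)` are the
critical points of a function of the point and `s` (generating function of the symplectic map), which after
a reduction to the kernel and a blow-up is a perturbation of `- a + a |w|² + C (w) / 6`, where `C` is an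
arbitrary cubic form; a saddle point argument gives critical points for small `s ≠ 0`: solutions
`y (t + q T) = exp (i s) c ^ q y (t)` arbitrarily near to `y l`, in contradiction to the locking. If
`α₁` and `α₂` have always the same resonances then `α₁ ± α₂` would be a multiple of `2 π`, which is
excluded, or `α₁` would be constant.
-/

namespace Pool.Agent.Results.MP_5027f4_mp.StableOrbitsAreIsospectral

open Filter Topology

/-- Phase points of `n` bodies in the plane `ℂ`: positions and velocities (product topology). -/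
abbrev Ph (n : ℕ) := (Fin n → ℂ) × (Fin n → ℂ)

/-- Newtonian acceleration of body `a`: `∑_{b ≠ a} m_b (q_b - q_a) / |q_b - q_a|^3`. -/
noncomputable def acc {n : ℕ} (m : Fin n → ℝ) (q : Fin n → ℂ) (a : Fin n) : ℂ :=
  ∑ b ∈ Finset.univ.erase a, ((m b / ‖q b - q a‖ ^ 3 : ℝ) : ℂ) * (q b - q a)

/-- Newton's vector field: the velocities and the accelerations. -/
noncomputable def newton {n : ℕ} (m : Fin n → ℝ) (z : Ph n) : Ph n := (z.2, acc m z.1)

/-- Total energy: kinetic energy minus the sum over pairs of `m_a m_b / |q_b - q_a|` (each pair occurs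
twice in the double sum, which is halved). -/
noncomputable def energy {n : ℕ} (m : Fin n → ℝ) (z : Ph n) : ℝ :=
  (∑ a, m a * ‖z.2 a‖ ^ 2) / 2 -
    (∑ a, ∑ b ∈ Finset.univ.erase a, m a * m b / ‖z.1 b - z.1 a‖) / 2

/-- Angular momentum. -/
noncomputable def angMom {n : ℕ} (m : Fin n → ℝ) (z : Ph n) : ℝ :=
  ∑ a, m a * ((starRingEnd ℂ) (z.1 a) * z.2 a).im

/-- The phase space in the centre of mass frame: no collisions, `∑ m_a q_a = 0`, `∑ m_a v_a = 0`. -/
def phaseSpace {n : ℕ} (m : Fin n → ℝ) : Set (Ph n) :=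
  {z | (∀ a b, a ≠ b → z.1 a ≠ z.1 b) ∧ ∑ a, (m a : ℂ) * z.1 a = 0 ∧ ∑ a, (m a : ℂ) * z.2 a = 0}

/-- `x = (q, v)` is a solution of Newton's equations on the time set `J`, in the centre of mass frame. -/
def IsSol {n : ℕ} (m : Fin n → ℝ) (J : Set ℝ) (x : ℝ → Ph n) : Prop :=
  ∀ t ∈ J, x t ∈ phaseSpace m ∧ HasDerivWithinAt x (newton m (x t)) J t

/-- All mutual distances are constant: a relative equilibrium. -/
def IsRelEq {n : ℕ} (x : ℝ → Ph n) : Prop :=
  ∀ t a b, ‖(x t).1 a - (x t).1 b‖ = ‖(x 0).1 a - (x 0).1 b‖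

/-- Lyapunov stability of an orbit `γ` in the centre of mass frame: for every neighbourhood `U₁` there is
a neighbourhood `U₂` such that every solution on `[0, ∞)` that starts in `U₂` stays in `U₁`. -/
def LyapunovStable {n : ℕ} (m : Fin n → ℝ) (γ : Set (Ph n)) : Prop :=
  ∀ U₁ : Set (Ph n), IsOpen U₁ → γ ⊆ U₁ → ∃ U₂ : Set (Ph n), IsOpen U₂ ∧ γ ⊆ U₂ ∧
    ∀ y : ℝ → Ph n, IsSol m (Set.Ici 0) y → y 0 ∈ U₂ → ∀ t : ℝ, 0 ≤ t → y t ∈ U₁

/-- `ξ` is a Jacobi field along `x`: it solves the linearization of Newton's equations along `x`, for all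
times, in the centre of mass frame. -/
def IsJacobi {n : ℕ} (m : Fin n → ℝ) (x ξ : ℝ → Ph n) : Prop :=
  ∀ t, (∑ a, (m a : ℂ) * (ξ t).1 a = 0 ∧ ∑ a, (m a : ℂ) * (ξ t).2 a = 0) ∧
    HasDerivAt ξ (fderiv ℝ (newton m) (x t) (ξ t)) t

/-- `exp (± i α)` is a pair of multipliers of `x`, `x (t + T) = c • x t`: there are Jacobi fields `ξ`,
`η`, `ξ 0 ≠ 0`, which are multiplied in one period by `c` and a rotation by the angle `α` in the real
plane of `ξ` and `η` (the complex Jacobi field `ξ ⊗ 1 + η ⊗ i` is multiplied by `c` and `exp (i α)`). -/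
def MultiplierPair (m : Fin 3 → ℝ) (x : ℝ → Ph 3) (T : ℝ) (c : ℂ) (α : ℝ) : Prop :=
  ∃ ξ η : ℝ → Ph 3, IsJacobi m x ξ ∧ IsJacobi m x η ∧ ξ 0 ≠ 0 ∧
    (∀ t, ξ (t + T) = c • (Real.cos α • ξ t - Real.sin α • η t)) ∧
    (∀ t, η (t + T) = c • (Real.sin α • ξ t + Real.cos α • η t))

theorem result {m : Fin 3 → ℝ} (hm : ∀ a, 0 < m a) {x : ℝ → Ph 3}
    (hx : IsSol m Set.univ x) (hne : ¬ IsRelEq x) (hst : LyapunovStable m (Set.range x))
    {T : ℝ} (hT : 0 < T) {c : ℂ} (hc : ‖c‖ = 1) (hper : ∀ t, x (t + T) = c • x t)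
    {α₁ α₂ : ℝ} (h₁ : MultiplierPair m x T c α₁) (h₂ : MultiplierPair m x T c α₂)
    (hα₁ : Real.sin α₁ ≠ 0) (hα₂ : Real.sin α₂ ≠ 0) (hα : Real.cos α₁ ≠ Real.cos α₂) :
    ∃ ε : ℝ, 0 < ε ∧ ∃ y : ℝ → ℝ → Ph 3, y (angMom m (x 0)) = x ∧
      ContDiffOn ℝ 1 (fun l => y l 0) (Metric.ball (angMom m (x 0)) ε) ∧
      ∀ l ∈ Metric.ball (angMom m (x 0)) ε, IsSol m Set.univ (y l) ∧
        (∀ t, y l (t + T) = c • y l t) ∧ energy m (y l 0) = energy m (x 0) ∧
        angMom m (y l 0) = l ∧ MultiplierPair m (y l) T c α₁ ∧ MultiplierPair m (y l) T c α₂ :=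
  Pool.Agent.D0H95.BF.spec (Pool.Agent.D0H70.BF.t_BU Pool.Agent.D0H70.BF.t_SAD)
    Pool.Agent.D0H25.BF.t_NT Pool.Agent.D0H70.BF.t_EIG hm hx hne hst hT hc hper hα₁ hα₂ hα h₁ h₂

end Pool.Agent.Results.MP_5027f4_mp.StableOrbitsAreIsospectral
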